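import Pool.Agent.H21VJ.Defs

/-!
# Vojta's inequality with the multiplier ideal correction for torus invariant ideals

For every smooth complete toric variety `X` over `ℚ`, every torus invariant ideal sheaf and ALL
algebraic points of the torus, of any degree, the inequality of the question holds with `ε = 0`,
without discriminant and with the constant `O(1) = 0`.  The case of the projective space is stated
separately, with the usual height.
-/

set_option autoImplicit false
open NumberField Pool.Agent.H21VJ

namespace Pool.Agent.Results.MP_8865d3_nt.ToricIdeals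

/-- Minus the logarithms of the homogeneous coordinates of the point `x`, normalised by the largest
one: the local heights of `x` with respect to the coordinate hyperplanes. -/
noncomputable def ploc {n : ℕ} {K : Type} (w : K → ℝ) (x : Fin (n + 1) → K) (i : Fin (n + 1)) : ℝ :=
  Real.log (⨆ j, w (x j)) - Real.log (w (x i))

/-- the logarithmic height of `x ∈ P^n(K)` relative to `K` (`[K : ℚ]` times the absolute one) -/
noncomputable def ht {n : ℕ} {K : Type} [Field K] [NumberField K] (x : Fin (n + 1) → K) : ℝ :=
  ∑ v : InfinitePlace K, v.mult * Real.log (⨆ j, v (x j)) +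
    ∑ᶠ v : FinitePlace K, Real.log (⨆ j, v (x j))

/-- the maximal cones of the fan of `P^n`: all but one of the `n + 1` rays -/
def pcones (n : ℕ) : Set (Set (Fin (n + 1))) := {σ | ∃ i, σ = {i}ᶜ}

/-- The anticanonical height relative to `K` of a point `x` of the torus of a toric variety:
the sum of the local heights with respect to all invariant divisors, at all places. -/
noncomputable def antiHt {n : ℕ} {ι : Type} [Fintype ι] (F : Fan n ι) {K : Type} [Field K]
    [NumberField K] (x : Fin n → K) : ℝ :=
  ∑ v : InfinitePlace K, v.mult * ∑ ρ, F.loc (fun y => v y) x ρ +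
    ∑ᶠ v : FinitePlace K, ∑ ρ, F.loc (fun y => v y) x ρ

variable {n : ℕ}


section glob

variable {K : Type} [Field K] [NumberField K]

theorem iSup_ge (w : K → ℝ) (x : Fin (n + 1) → K) (i : Fin (n + 1)) : w (x i) ≤ ⨆ j, w (x j) :=
  le_ciSup (f := fun j => w (x j)) (Set.finite_range _).bddAbove i

theorem ploc_nonneg {w : K → ℝ} {x : Fin (n + 1) → K} (hw : ∀ i, 0 < w (x i)) (i : Fin (n + 1)) :
    0 ≤ ploc w x i :=
  sub_nonneg.2 (Real.log_le_log (hw i) (iSup_ge w x i))

theorem ploc_zero (w : K → ℝ) (x : Fin (n + 1) → K) : ∃ i, ploc w x i = 0 := by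
  obtain ⟨i, hi⟩ := exists_eq_ciSup_of_finite (f := fun j => w (x j))
  exact ⟨i, by unfold ploc; rw [← hi, sub_self]⟩

theorem plam_le {J : Set (Fin (n + 1) → ℕ)} (hJ : J.Nonempty) {w : K → ℝ} {x : Fin (n + 1) → K}
    (hw : ∀ i, 0 < w (x i)) :
    lam J (ploc w x) - lam (multMinus (pcones n) J) (ploc w x) ≤ ∑ i, ploc w x i := by
  obtain ⟨i, hi⟩ := ploc_zero w x
  have := local_ineq (cones := pcones n) hJ (fun i => ploc_nonneg hw i)
    ⟨{i}ᶜ, ⟨i, rfl⟩, fun j hj => by
      have : j = i := by simpa using hj
      rw [this, hi]⟩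
  linarith

theorem fin_log {y : K} (hy : y ≠ 0) :
    (Function.support fun v : FinitePlace K => Real.log (v y)).Finite := by
  refine (FinitePlace.hasFiniteMulSupport hy).subset ?_
  intro v hv
  rw [Function.mem_support] at hv
  rw [Function.mem_mulSupport]
  intro h
  exact hv (by rw [h, Real.log_one])

theorem fin_logsup {x : Fin (n + 1) → K} (hx : ∀ i, x i ≠ 0) :
    (Function.support fun v : FinitePlace K => Real.log (⨆ j, v (x j))).Finite := by
  have h1 : (⋃ i, Function.mulSupport fun v : FinitePlace K => v (x i)).Finite :=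
    Set.finite_iUnion fun i => FinitePlace.hasFiniteMulSupport (hx i)
  refine h1.subset ?_
  intro v hv
  rw [Function.mem_support] at hv
  by_contra h
  rw [Set.mem_iUnion] at h
  push Not at h
  apply hv
  have h2 : ∀ i, v (x i) = 1 := fun i => by
    have := h i
    rwa [Function.mem_mulSupport, not_not] at this
  have h3 : (⨆ j, v (x j)) = 1 := by simp [h2]
  rw [h3, Real.log_one]

/-- logarithmic product formula -/
theorem prodf {y : K} (hy : y ≠ 0) :
    ∑ v : InfinitePlace K, v.mult * Real.log (v y) + ∑ᶠ v : FinitePlace K, Real.log (v y) = 0 := by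
  have h := NumberField.prod_abs_eq_one hy
  have hpos : ∀ v : InfinitePlace K, v y ^ v.mult ≠ 0 := fun v =>
    pow_ne_zero _ (by simpa using hy)
  have hfin : (Function.mulSupport fun v : FinitePlace K => v y).Finite :=
    FinitePlace.hasFiniteMulSupport hy
  have hfp : ∀ v : FinitePlace K, v y ≠ 0 := fun v => by simpa using hy
  have h1 : Real.log (∏ᶠ v : FinitePlace K, v y) = ∑ᶠ v : FinitePlace K, Real.log (v y) := by
    rw [finprod_eq_prod_of_mulSupport_subset (s := hfin.toFinset) _ (by
        intro v hv
        simpa using hv),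
      Real.log_prod (fun v _ => hfp v),
      finsum_eq_sum_of_support_subset (s := hfin.toFinset)]
    intro v hv
    rw [Function.mem_support] at hv
    simp only [Set.Finite.coe_toFinset, Function.mem_mulSupport]
    intro h
    exact hv (by rw [h, Real.log_one])
  have h2 : Real.log (∏ v : InfinitePlace K, v y ^ v.mult) =
      ∑ v : InfinitePlace K, v.mult * Real.log (v y) := by
    rw [Real.log_prod (fun v _ => hpos v)]
    refine Finset.sum_congr rfl fun v _ => ?_
    rw [Real.log_pow]
  have h3 : (∏ᶠ v : FinitePlace K, v y) ≠ 0 := by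
    intro h0
    rw [h0, mul_zero] at h
    exact zero_ne_one h
  rw [← h1, ← h2, ← Real.log_mul (Finset.prod_ne_zero_iff.2 fun v _ => hpos v) h3, h, Real.log_one]

theorem proj {J : Set (Fin (n + 1) → ℕ)} (hJ : J.Nonempty) (S : Finset (FinitePlace K))
    (x : Fin (n + 1) → K) (hx : ∀ i, x i ≠ 0) :
    -(n + 1) * ht x +
      (∑ v : InfinitePlace K, v.mult * lam J (ploc (fun y => v y) x) +
        ∑ v ∈ S, lam J (ploc (fun y => v y) x)) -
      (∑ v : InfinitePlace K, v.mult * lam (multMinus (pcones n) J) (ploc (fun y => v y) x) +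
        ∑ v ∈ S, lam (multMinus (pcones n) J) (ploc (fun y => v y) x)) ≤ 0 := by
  have hi : ∀ (v : InfinitePlace K) i, 0 < v (x i) := fun v i => v.val.pos (hx i)
  have hf : ∀ (v : FinitePlace K) i, 0 < v (x i) := fun v i => v.val.pos (hx i)
  have h1 : ∑ v : InfinitePlace K, v.mult * lam J (ploc (fun y => v y) x) -
      ∑ v : InfinitePlace K, v.mult * lam (multMinus (pcones n) J) (ploc (fun y => v y) x) ≤
      ∑ v : InfinitePlace K, v.mult * ∑ i, ploc (fun y => v y) x i := by
    rw [← Finset.sum_sub_distrib]
    refine Finset.sum_le_sum fun v _ => ?_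
    rw [← mul_sub]
    exact mul_le_mul_of_nonneg_left (plam_le hJ (hi v)) (Nat.cast_nonneg _)
  have h2 : ∑ v ∈ S, lam J (ploc (fun y => v y) x) - ∑ v ∈ S, lam (multMinus (pcones n) J) (ploc (fun y => v y) x) ≤
      ∑ v ∈ S, ∑ i, ploc (fun y => v y) x i := by
    rw [← Finset.sum_sub_distrib]
    exact Finset.sum_le_sum fun v _ => plam_le hJ (hf v)
  have hsup : ∀ v : FinitePlace K, ∑ i, ploc (fun y => v y) x i =
      (n + 1) * Real.log (⨆ j, v (x j)) - ∑ i, Real.log (v (x i)) := by
    intro v
    unfold ploc
    rw [Finset.sum_sub_distrib, Finset.sum_const, Finset.card_univ, Fintype.card_fin, nsmul_eq_mul]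
    push_cast
    ring
  have hfs : (Function.support fun v : FinitePlace K => ∑ i, ploc (fun y => v y) x i).Finite := by
    have h5 : (Function.support (fun v : FinitePlace K => Real.log (⨆ j, v (x j))) ∪
        ⋃ i, Function.support (fun v : FinitePlace K => Real.log (v (x i)))).Finite :=
      (fin_logsup hx).union (Set.finite_iUnion fun i => fin_log (hx i))
    refine h5.subset ?_
    intro v hv
    by_contra h
    rw [Set.mem_union, not_or, Set.mem_iUnion] at h
    obtain ⟨h6, h7⟩ := h
    push Not at h7
    rw [Function.mem_support, not_not] at h6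
    rw [Function.mem_support] at hv
    apply hv
    rw [hsup v, h6, mul_zero, zero_sub, neg_eq_zero]
    refine Finset.sum_eq_zero fun i _ => ?_
    have := h7 i
    rwa [Function.mem_support, not_not] at this
  have h3 : ∑ v ∈ S, ∑ i, ploc (fun y => v y) x i ≤
      ∑ᶠ v : FinitePlace K, ∑ i, ploc (fun y => v y) x i := by
    classical
    rw [finsum_eq_sum_of_support_subset (s := hfs.toFinset ∪ S) _ (by
      intro v hv
      simp only [Finset.coe_union, Set.Finite.coe_toFinset, Set.mem_union]
      exact Or.inl hv)]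
    refine Finset.sum_le_sum_of_subset_of_nonneg Finset.subset_union_right fun v _ _ => ?_
    exact Finset.sum_nonneg fun i _ => ploc_nonneg (hf v) i
  have h4 : ∑ᶠ v : FinitePlace K, ∑ i, ploc (fun y => v y) x i =
      (n + 1) * ∑ᶠ v : FinitePlace K, Real.log (⨆ j, v (x j)) -
        ∑ i, ∑ᶠ v : FinitePlace K, Real.log (v (x i)) := by
    simp only [hsup]
    rw [finsum_sub_distrib, ← mul_finsum, finsum_sum_comm]
    · intro i _
      exact fin_log (hx i)
    · exact (fin_logsup hx).subset (by
        intro v hv
        rw [Function.mem_support] at hv ⊢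
        intro h
        exact hv (by rw [h, mul_zero]))
    · refine (Set.finite_iUnion fun i => fin_log (hx i)).subset ?_
      intro v hv
      rw [Function.mem_support] at hv
      by_contra h
      rw [Set.mem_iUnion] at h
      push Not at h
      apply hv
      refine Finset.sum_eq_zero fun i _ => ?_
      have := h i
      rwa [Function.mem_support, not_not] at this
  have h5 : ∑ v : InfinitePlace K, v.mult * ∑ i, ploc (fun y => v y) x i =
      (n + 1) * ∑ v : InfinitePlace K, v.mult * Real.log (⨆ j, v (x j)) -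
        ∑ i, ∑ v : InfinitePlace K, v.mult * Real.log (v (x i)) := by
    rw [Finset.sum_comm, Finset.mul_sum, ← Finset.sum_sub_distrib]
    refine Finset.sum_congr rfl fun v _ => ?_
    unfold ploc
    rw [Finset.sum_sub_distrib, Finset.sum_const, Finset.card_univ, Fintype.card_fin, nsmul_eq_mul,
      ← Finset.mul_sum]
    push_cast
    ring
  have h6 : ∑ i, ∑ v : InfinitePlace K, v.mult * Real.log (v (x i)) +
      ∑ i, ∑ᶠ v : FinitePlace K, Real.log (v (x i)) = 0 := by
    rw [← Finset.sum_add_distrib]
    exact Finset.sum_eq_zero fun i _ => prodf (hx i)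
  unfold ht
  linarith


theorem tor_supp {ι : Type} [Fintype ι] (F : Fan n ι) {x : Fin n → K} (hx : ∀ i, x i ≠ 0) :
    (Function.support fun v : FinitePlace K => ∑ ρ, F.loc (fun y => v y) x ρ).Finite := by
  have h1 : (⋃ i, Function.mulSupport fun v : FinitePlace K => v (x i)).Finite :=
    Set.finite_iUnion fun i => FinitePlace.hasFiniteMulSupport (hx i)
  refine h1.subset ?_
  intro v hv
  rw [Function.mem_support] at hv
  by_contra h
  rw [Set.mem_iUnion] at h
  push Not at h
  apply hv
  have h2 : ∀ i, v (x i) = 1 := fun i => by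
    have := h i
    rwa [Function.mem_mulSupport, not_not] at this
  have h3 : (fun j => -Real.log (v (x j))) = (0 : Fin n → ℝ) := by
    funext j
    simp [h2]
  unfold Fan.loc
  rw [h3, F.crd_zero]
  simp

theorem tor {ι : Type} [Fintype ι] (F : Fan n ι) {J : Set (ι → ℕ)} (hJ : J.Nonempty)
    (S : Finset (FinitePlace K)) (x : Fin n → K) (hx : ∀ i, x i ≠ 0) :
    -antiHt F x +
      (∑ v : InfinitePlace K, v.mult * lam J (F.loc (fun y => v y) x) +
        ∑ v ∈ S, lam J (F.loc (fun y => v y) x)) -
      (∑ v : InfinitePlace K, v.mult * lam (multMinus F.cones J) (F.loc (fun y => v y) x) +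
        ∑ v ∈ S, lam (multMinus F.cones J) (F.loc (fun y => v y) x)) ≤ 0 := by
  have h1 : ∑ v : InfinitePlace K, v.mult * lam J (F.loc (fun y => v y) x) -
      ∑ v : InfinitePlace K, v.mult * lam (multMinus F.cones J) (F.loc (fun y => v y) x) ≤
      ∑ v : InfinitePlace K, v.mult * ∑ i, F.loc (fun y => v y) x i := by
    rw [← Finset.sum_sub_distrib]
    refine Finset.sum_le_sum fun v _ => ?_
    rw [← mul_sub]
    exact mul_le_mul_of_nonneg_left (F.lam_le hJ _ _) (Nat.cast_nonneg _)
  have h2 : ∑ v ∈ S, lam J (F.loc (fun y => v y) x) -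
      ∑ v ∈ S, lam (multMinus F.cones J) (F.loc (fun y => v y) x) ≤
      ∑ v ∈ S, ∑ i, F.loc (fun y => v y) x i := by
    rw [← Finset.sum_sub_distrib]
    exact Finset.sum_le_sum fun v _ => F.lam_le hJ _ _
  have hfs := tor_supp F hx
  have h3 : ∑ v ∈ S, ∑ i, F.loc (fun y => v y) x i ≤
      ∑ᶠ v : FinitePlace K, ∑ i, F.loc (fun y => v y) x i := by
    classical
    rw [finsum_eq_sum_of_support_subset (s := hfs.toFinset ∪ S) _ (by
      intro v hv
      simp only [Finset.coe_union, Set.Finite.coe_toFinset, Set.mem_union]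
      exact Or.inl hv)]
    refine Finset.sum_le_sum_of_subset_of_nonneg Finset.subset_union_right fun v _ _ => ?_
    exact Finset.sum_nonneg fun i _ => F.loc_nonneg _ _ i
  unfold antiHt
  linarith

end glob

/-- **Result.**  (1) Let `X` be the smooth complete toric variety of the fan `F`, `I` the ideal sheaf
generated by the monomials `x^u`, `u ∈ J`, in the Cox coordinates, and `I^-` its multiplier ideal
`lim I_{1-ε}`.  For every number field `K`, every `K`-point `x` of the torus and every finite set
`S` of finite places of `K`, with the archimedean places added,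
`h_{K_X}(x) + ∑_{v ∈ S} λ_I(x, v) - ∑_{v ∈ S} λ_{I^-}(x, v) ≤ 0` (all terms are multiplied by
`[K : ℚ]`; the local heights vanish at almost all places).  (2) The same on `P^n`, with
`K_X = O(-(n+1))` and the usual height of the homogeneous coordinates. -/
theorem result :
    (∀ (n : ℕ) (ι : Type) [Fintype ι] (F : Fan n ι) (J : Set (ι → ℕ)), J.Nonempty →
      ∀ (K : Type) [Field K] [NumberField K] (S : Finset (FinitePlace K)) (x : Fin n → K),
      (∀ i, x i ≠ 0) →
      (Function.support fun v : FinitePlace K => ∑ ρ, F.loc (fun y => v y) x ρ).Finite ∧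
      -antiHt F x +
        (∑ v : InfinitePlace K, v.mult * lam J (F.loc (fun y => v y) x) +
          ∑ v ∈ S, lam J (F.loc (fun y => v y) x)) -
        (∑ v : InfinitePlace K, v.mult * lam (multMinus F.cones J) (F.loc (fun y => v y) x) +
          ∑ v ∈ S, lam (multMinus F.cones J) (F.loc (fun y => v y) x)) ≤ 0) ∧
    (∀ (n : ℕ) (J : Set (Fin (n + 1) → ℕ)), J.Nonempty →
      ∀ (K : Type) [Field K] [NumberField K] (S : Finset (FinitePlace K)) (x : Fin (n + 1) → K),
      (∀ i, x i ≠ 0) →
      -(n + 1) * ht x +
        (∑ v : InfinitePlace K, v.mult * lam J (ploc (fun y => v y) x) +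
          ∑ v ∈ S, lam J (ploc (fun y => v y) x)) -
        (∑ v : InfinitePlace K, v.mult * lam (multMinus (pcones n) J) (ploc (fun y => v y) x) +
          ∑ v ∈ S, lam (multMinus (pcones n) J) (ploc (fun y => v y) x)) ≤ 0) :=
  ⟨fun _ _ _ F _ hJ _ _ _ S x hx => ⟨tor_supp F hx, tor F hJ S x hx⟩,
    fun _ _ hJ _ _ _ S x hx => proj hJ S x hx⟩

end Pool.Agent.Results.MP_8865d3_nt.ToricIdeals
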